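import Pool.Agent.UL6.Stmts2

/-! Row DCA of squad UL6: the double frusta with ratio at most 2/5. -/

set_option autoImplicit false

namespace Pool.Agent.UL6.H86

open MeasureTheory Set Pool.Agent.UL3 Pool.Agent.UL4 Pool.Agent.UL5 Pool.Agent.UL6

theorem core2 (hTDV : TdvStmt) (hSEQ : SeqStmt) (hLTF : LtfStmt) (hADJ : AdjStmt)
    {C : Set (ℝ × ℝ)} {t a w m r : ℝ} (hC : PB C) (ha : 0 < a) (ha4 : a ≤ 1 / 4)
    (hw : w = (1 - 3 * a / 2) / (1 - a / 2)) (hw0 : 0 < w) (hm : 0 < m) (hm2 : m < 2)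
    (hr : 0 < r) (hr34 : r ≤ 3 / 4) (h1 : r * (2 - m) ≤ w) (h2 : 2 - m ≤ 2 * w ^ 2 * m)
    (h3 : 1 - 3 * a / 2 = (1 - a / 2) * m * r) (ht : 1 - 3 * a ≤ t) (ht1 : t < 1)
    (h4 : 1481 / 250 * ((3 * a - 4 * a ^ 2) * (1 - a / 2) * (m / 4)) ≤ 2 / 3 * (1 - t ^ 3)) :
    Good6 (tda C t) := by
  obtain ⟨u, q, hu, hui, hH, hcr, hout⟩ := hSEQ C w m r hC hw0 hm hm2 hr hr34 h1 h2
  have hHle : (1 - 3 * a / 2) * Hm C u ≤ (1 - a / 2) * cr u q := by
    have h5 : 0 ≤ (1 - a / 2) * m / 4 := by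
      have : 0 ≤ 1 - a / 2 := by linarith
      positivity
    calc (1 - 3 * a / 2) * Hm C u = (1 - a / 2) * m / 4 * (4 * r * Hm C u) := by
          rw [h3]
          ring
      _ ≤ (1 - a / 2) * m / 4 * ar C := mul_le_mul_of_nonneg_left hH h5
      _ = (1 - a / 2) * cr u q := by
          rw [hcr]
          ring
  obtain ⟨v, hv0, hadm, hdt⟩ := hLTF C u q a hC ha ha4 hu hui hHle (by rw [← hw]; exact hout)
  have hsub : tda C t ⊆ tda C (1 - 3 * a) :=
    (hTDV C (1 - 3 * a) hC (by linarith) (by linarith)).2.2.2 t ht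
  obtain ⟨hSB, hV, -, -⟩ := hTDV C t hC (by linarith) ht1
  have hadm' : Adm (tda C t) v := fun n hn h => hadm n hn (interior_mono hsub h)
  refine ⟨v, hv0, hADJ _ v hSB hadm', ?_⟩
  have hpos : 0 ≤ ar C := measureReal_nonneg
  rw [hdt, hV, hcr]
  calc 1481 / 250 * ((3 * a - 4 * a ^ 2) * (1 - a / 2) * (m / 4 * ar C))
      = 1481 / 250 * ((3 * a - 4 * a ^ 2) * (1 - a / 2) * (m / 4)) * ar C := by ring
    _ ≤ 2 / 3 * (1 - t ^ 3) * ar C := mul_le_mul_of_nonneg_right h4 hpos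

/-- **Row DCA.** -/
theorem dca (hTDV : TdvStmt) (hSEQ : SeqStmt) (hLTF : LtfStmt) (hADJ : AdjStmt)
    (hSel : SelStmt) (hLat : LatStmt) : DcaStmt := by
  intro C t hC h0 h2
  rcases le_total t (3 / 10) with h | h
  · have h5 : t ^ 3 ≤ (3 / 10) ^ 3 := pow_le_pow_left₀ h0 h 3
    obtain ⟨u, q, hu, hui, hH, hcr, hout⟩ := hSel C hC
    obtain ⟨v, hv0, hadm, hdt⟩ := hLat C u q hC hu hui hH hcr hout
    obtain ⟨hSB, hV, hsub, -⟩ := hTDV C t hC h0 (by linarith)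
    have hadm' : Adm (tda C t) v := fun n hn h => hadm n hn (interior_mono hsub h)
    refine ⟨v, hv0, hADJ _ v hSB hadm', ?_⟩
    have hpos : 0 ≤ ar C := measureReal_nonneg
    rw [hdt, hV]
    have h6 : (1481 / 250 : ℝ) * (7 / 64) ≤ 2 / 3 * (1 - t ^ 3) := by
      norm_num at h5 ⊢
      linarith
    calc (1481 / 250 : ℝ) * (7 / 64 * ar C) = 1481 / 250 * (7 / 64) * ar C := by ring
      _ ≤ 2 / 3 * (1 - t ^ 3) * ar C := mul_le_mul_of_nonneg_right h6 hpos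
  rcases le_total t (7 / 20) with h' | h'
  · have h5 : t ^ 3 ≤ (7 / 20) ^ 3 := pow_le_pow_left₀ h0 h' 3
    refine core2 hTDV hSEQ hLTF hADJ (a := 7 / 30) (w := 39 / 53) (m := 268 / 265)
      (r := 195 / 268) hC (by norm_num) (by norm_num) (by norm_num) (by norm_num) (by norm_num)
      (by norm_num) (by norm_num) (by norm_num) (by norm_num) (by norm_num) (by norm_num)
      (by linarith) (by linarith) ?_
    norm_num at h5 ⊢
    linarith
  · have h5 : t ^ 3 ≤ (2 / 5) ^ 3 := pow_le_pow_left₀ h0 h2 3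
    refine core2 hTDV hSEQ hLTF hADJ (a := 13 / 60) (w := 81 / 107) (m := 328 / 321)
      (r := 243 / 328) hC (by norm_num) (by norm_num) (by norm_num) (by norm_num) (by norm_num)
      (by norm_num) (by norm_num) (by norm_num) (by norm_num) (by norm_num) (by norm_num)
      (by linarith) (by linarith) ?_
    norm_num at h5 ⊢
    linarith

end Pool.Agent.UL6.H86
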