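import Pool.Agent.UL6.Stmts

/-! Row GCC of squad UL6: the frusta with ratio at most 3/10. -/

set_option autoImplicit false

namespace Pool.Agent.UL6.H86

open MeasureTheory Set Pool.Agent.UL3 Pool.Agent.UL4 Pool.Agent.UL5 Pool.Agent.UL6

/-- **Row GCC.** -/
theorem gcc (hFGV : FgvStmt) (hFGI : FgiStmt) (hDCB : DcbStmt) (hSel : SelStmt)
    (hLat : LatStmt) : GccStmt := by
  intro C t hC h0 h
  have h5 : t ^ 3 ≤ (3 / 10) ^ 3 := pow_le_pow_left₀ h0 h 3
  obtain ⟨u, q, hu, hui, hH, hcr, hout⟩ := hSel C hC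
  obtain ⟨v, hv0, hadm, hdt⟩ := hLat C u q hC hu hui hH hcr hout
  obtain ⟨hSB, -⟩ := hDCB C hC
  have ht0 : 0 < 1 - t := by linarith
  obtain ⟨_, hV⟩ := hFGV C 1 (1 - t) hC (by norm_num) ht0 (by linarith)
  have hsub : frg C 1 (1 - t) ⊆ dco C := by
    rintro x ⟨h1, h2, c, hc, h3⟩
    have h4 : |x 2| = x 2 := abs_of_nonneg h1
    refine ⟨by rw [h4]; linarith, c, hc, ?_⟩
    rw [h3, h4, one_mul]
  have hint : interior (frg C 1 (1 - t)) ⊆ interior (dco C) := interior_mono hsub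
  have hz : (0 : E3) ∉ interior (frg C 1 (1 - t)) := by
    intro h
    have h5 : (0 : E3) = up (0, 0) 0 := by
      ext i
      fin_cases i <;> rfl
    rw [h5] at h
    have h6 := (hFGI C 1 (1 - t) (0, 0) 0 hC (by norm_num) ht0 (by linarith) h).1
    exact lt_irrefl _ h6
  refine ⟨v, 0, hv0, ?_, ?_, ?_⟩
  · intro n hn
    rw [Set.disjoint_left]
    rintro y hy ⟨x, hx, hxy⟩
    apply hadm n hn
    have h5 : -x ∈ dco C := hSB.sym x (interior_subset (hint hx))
    have h6 : (1 / 2 : ℝ) • y + (1 / 2 : ℝ) • (-x) ∈ interior (dco C) :=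
      hSB.cvx.combo_interior_self_mem_interior (hint hy) h5 (by norm_num) (by norm_num)
        (by norm_num)
    have h7 : (1 / 2 : ℝ) • y + (1 / 2 : ℝ) • (-x) = ∑ i, (n i : ℝ) • v i := by
      rw [← hxy]
      simp only [smul_add, smul_smul, smul_neg]
      norm_num
    rwa [h7] at h6
  · intro n hcon
    rw [zero_add] at hcon
    by_cases hn : n = 0
    · apply hz
      rw [hn] at hcon
      simpa using hcon
    · exact hadm n hn (hint hcon)
  · have hpos : 0 ≤ ar C := measureReal_nonneg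
    rw [hdt, hV]
    have h8 : 1 - t - 1 * (1 - t) ^ 2 + 1 ^ 2 * (1 - t) ^ 3 / 3 = (1 - t ^ 3) / 3 := by ring
    rw [h8]
    have h9 : (1481 / 500 : ℝ) * (7 / 64) ≤ (1 - t ^ 3) / 3 := by
      norm_num at h5 ⊢
      linarith
    calc (1481 / 500 : ℝ) * (7 / 64 * ar C) = 1481 / 500 * (7 / 64) * ar C := by ring
      _ ≤ (1 - t ^ 3) / 3 * ar C := mul_le_mul_of_nonneg_right h9 hpos

end Pool.Agent.UL6.H86
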