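import Pool.Agent.UL6.Stmts2
import Pool.Agent.Helper7_UL6.FGV
import Pool.Agent.Helper7_UL5.DCB
import Pool.Agent.Helper27_UL5.DGD
import Pool.Agent.Helper92_UL6.FGI

/-!
# Squad UL6 (MP_c7c9bf_co), row TDD: the double frustum
-/

set_option autoImplicit false

open MeasureTheory Set

namespace Pool.Agent.UL6.H86

open Pool.Agent.UL3 Pool.Agent.UL4 Pool.Agent.UL5 Pool.Agent.UL6

theorem tdd_union {C : Set (ℝ × ℝ)} (hC : PB C) {t : ℝ} :
    tdd C t = frg C (1 - t) 1 ∪ (fun x : E3 => -x) ⁻¹' frg C (1 - t) 1 := by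
  ext x
  constructor
  · rintro ⟨hx, c, hc, hxc⟩
    rcases le_total 0 (x 2) with h | h
    · rw [abs_of_nonneg h] at hx hxc
      exact Or.inl ⟨h, hx, c, hc, hxc⟩
    · rw [abs_of_nonpos h] at hx hxc
      refine Or.inr ⟨?_, ?_, -c, hC.sym c hc, ?_⟩
      · show 0 ≤ -(x 2)
        linarith
      · show -(x 2) ≤ 1
        exact hx
      · show (-(x 0), -(x 1)) = (1 - (1 - t) * -(x 2)) • -c
        rw [smul_neg, ← hxc]
        rfl
  · rintro (⟨h0, h1, c, hc, hxc⟩ | ⟨h0, h1, c, hc, hxc⟩)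
    · refine ⟨?_, c, hc, ?_⟩
      · rw [abs_of_nonneg h0]
        exact h1
      · rw [abs_of_nonneg h0, hxc]
    · have h0' : 0 ≤ -(x 2) := h0
      have h1' : -(x 2) ≤ 1 := h1
      have hxc' : (-(x 0), -(x 1)) = (1 - (1 - t) * -(x 2)) • c := hxc
      have hx : (x 0, x 1) = -((-(x 0), -(x 1)) : ℝ × ℝ) := by
        rw [Prod.neg_mk, neg_neg, neg_neg]
      refine ⟨?_, -c, hC.sym c hc, ?_⟩
      · rw [abs_of_nonpos (by linarith)]
        exact h1'
      · rw [abs_of_nonpos (by linarith), hx, hxc', smul_neg]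

theorem vol_two' {C : Set (ℝ × ℝ)} {t : ℝ} (hC : PB C) (h2 : CB (frg C (1 - t) 1)) :
    V (tdd C t) = 2 * V (frg C (1 - t) 1) := by
  have hm : MeasurableSet (frg C (1 - t) 1) := h2.cpt.measurableSet
  have hm' : MeasurableSet ((fun x : E3 => -x) ⁻¹' frg C (1 - t) 1) := hm.preimage (by fun_prop)
  have hv : (volume : Measure E3) ((fun x : E3 => -x) ⁻¹' frg C (1 - t) 1)
      = volume (frg C (1 - t) 1) := Measure.measure_preimage_neg volume (frg C (1 - t) 1)
  have h4 : (volume : Measure E3) (frg C (1 - t) 1 ∩ (fun x : E3 => -x) ⁻¹' frg C (1 - t) 1)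
      = 0 := by
    refine measure_mono_null ?_ Pool.Agent.UL5.H27.plane_null
    rintro x ⟨hx, hx'⟩
    have h5 : 0 ≤ x 2 := hx.1
    have h6 : 0 ≤ (-x) 2 := hx'.1
    have h7 : (-x) 2 = - x 2 := rfl
    show x 2 = 0
    linarith
  have h5 := measure_union_add_inter (μ := (volume : Measure E3)) (frg C (1 - t) 1) hm'
  rw [h4, add_zero, hv] at h5
  have h8 : (volume : Measure E3) (frg C (1 - t) 1) ≠ ⊤ := h2.cpt.measure_lt_top.ne
  unfold V Measure.real
  rw [tdd_union hC, h5, ENNReal.toReal_add h8 h8]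
  ring

theorem tdd_cvx {C : Set (ℝ × ℝ)} {t : ℝ} (h : PB C) (ht0 : 0 ≤ t) (ht1 : t ≤ 1) :
    Convex ℝ (tdd C t) := by
  rintro x ⟨h1, c, hc, hx⟩ y ⟨k1, d, hd, hy⟩ a b ha hb hab
  have habs : |a * x 2 + b * y 2| ≤ a * |x 2| + b * |y 2| := by
    refine (abs_add_le _ _).trans ?_
    rw [abs_mul, abs_mul, abs_of_nonneg ha, abs_of_nonneg hb]
  have hr : ∀ z : ℝ, |z| ≤ 1 → 0 ≤ 1 - (1 - t) * |z| := by
    intro z hz
    have h2 : (1 - t) * |z| ≤ 1 * 1 := mul_le_mul (by linarith) hz (abs_nonneg _) (by norm_num)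
    linarith
  have h3 : (1 - t) * |a * x 2 + b * y 2| ≤ (1 - t) * (a * |x 2| + b * |y 2|) :=
    mul_le_mul_of_nonneg_left habs (by linarith)
  obtain ⟨e, he, heq⟩ := Pool.Agent.UL5.H7.comb h hc hd (p := a * (1 - (1 - t) * |x 2|))
    (q := b * (1 - (1 - t) * |y 2|)) (s := 1 - (1 - t) * |a * x 2 + b * y 2|)
    (mul_nonneg ha (hr _ h1)) (mul_nonneg hb (hr _ k1)) (by nlinarith)
  refine ⟨?_, e, he, ?_⟩
  · show |a * x 2 + b * y 2| ≤ 1
    nlinarith
  · show (a * x 0 + b * y 0, a * x 1 + b * y 1) = (1 - (1 - t) * |a * x 2 + b * y 2|) • e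
    rw [← heq, ← smul_smul, ← smul_smul, ← hx, ← hy]
    rfl

theorem tdd_pt {C : Set (ℝ × ℝ)} {t : ℝ} (ht0 : 0 ≤ t)
    (p : ℝ × ℝ) (z : ℝ) (hz : up p z ∈ interior (tdd C t)) :
    |z| < 1 ∧ (1 - (1 - t) * |z|)⁻¹ • p ∈ interior C := by
  have hle : ∀ s : ℝ, up p s ∈ tdd C t → |s| ≤ 1 := fun s hs => hs.1
  have hlt : |z| < 1 := by
    obtain ⟨S, hS⟩ : ∃ S : Set ℝ, S = (fun s : ℝ => up p s) ⁻¹' interior (tdd C t) := ⟨_, rfl⟩
    have hSo : IsOpen S := by
      rw [hS]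
      exact isOpen_interior.preimage
        (Pool.Agent.UL6.H92.up_cont continuous_const continuous_id)
    have hzS : z ∈ S := by
      rw [hS]
      exact hz
    obtain ⟨δ, hδ, hball⟩ := Metric.isOpen_iff.1 hSo z hzS
    have h1 : ∀ s : ℝ, |s - z| < δ → |s| ≤ 1 := by
      intro s hs
      have h2 : s ∈ S := hball (by rw [Metric.mem_ball, Real.dist_eq]; exact hs)
      rw [hS] at h2
      exact hle s (interior_subset h2)
    rcases le_total 0 z with h0 | h0
    · have h2 := h1 (z + δ / 2) (by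
        rw [add_sub_cancel_left, abs_of_pos (by linarith)]
        linarith)
      have h3 := (abs_le.1 h2).2
      rw [abs_of_nonneg h0]
      linarith
    · have h2 := h1 (z - δ / 2) (by
        rw [sub_sub_cancel_left, abs_neg, abs_of_pos (by linarith)]
        linarith)
      have h3 := (abs_le.1 h2).1
      rw [abs_of_nonpos h0]
      linarith
  refine ⟨hlt, ?_⟩
  have h1 : 0 < 1 - (1 - t) * |z| := by
    have h2 : (1 - t) * |z| ≤ 1 * |z| := mul_le_mul_of_nonneg_right (by linarith) (abs_nonneg _)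
    linarith
  have hsub : (fun q : ℝ × ℝ => up ((1 - (1 - t) * |z|) • q) z) ⁻¹' interior (tdd C t) ⊆ C := by
    intro q hq
    obtain ⟨-, c, hc, hqc⟩ := interior_subset hq
    have e1 : (1 - (1 - t) * |z|) • q = (1 - (1 - t) * |z|) • c := hqc
    have e2 : q = c := smul_right_injective _ h1.ne' e1
    rw [e2]
    exact hc
  refine interior_maximal hsub (isOpen_interior.preimage
    (Pool.Agent.UL6.H92.up_cont (continuous_const_smul _) continuous_const)) ?_
  show up ((1 - (1 - t) * |z|) • (1 - (1 - t) * |z|)⁻¹ • p) z ∈ interior (tdd C t)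
  rw [smul_inv_smul₀ h1.ne']
  exact hz

/-- **Row TDD.** -/
theorem tdd' : TddStmt := by
  intro C t hC ht0 ht1
  obtain ⟨hCB, hV⟩ := Pool.Agent.UL6.H7.fgv C (1 - t) 1 hC (by linarith) one_pos (by linarith)
  refine ⟨⟨?_, tdd_cvx hC ht0 ht1, ?_, ?_⟩, ?_, tdd_pt ht0⟩
  · rw [tdd_union hC]
    refine hCB.cpt.union ?_
    have h1 : (fun x : E3 => -x) ⁻¹' frg C (1 - t) 1 = (fun x : E3 => -x) '' frg C (1 - t) 1 := by
      ext x
      constructor
      · intro hx
        exact ⟨-x, hx, neg_neg x⟩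
      · rintro ⟨y, hy, rfl⟩
        show -(-y) ∈ frg C (1 - t) 1
        rwa [neg_neg]
    rw [h1]
    exact hCB.cpt.image continuous_neg
  · rintro x ⟨hx, c, hc, hxc⟩
    have h2 : (-x) 2 = -(x 2) := rfl
    have h01 : ((-x) 0, (-x) 1) = -(x 0, x 1) := rfl
    refine ⟨?_, -c, hC.sym c hc, ?_⟩
    · rw [h2, abs_neg]
      exact hx
    · rw [h2, abs_neg, h01, hxc, smul_neg]
  · refine hCB.int.mono (interior_mono ?_)
    rw [tdd_union hC]
    exact subset_union_left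
  · rw [vol_two' hC hCB, hV]
    ring

end Pool.Agent.UL6.H86
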