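import Pool.Agent.UL6.Stmts

/-!
# Squad UL6: the theorem from the rows
-/

set_option autoImplicit false

namespace Pool.Agent.UL6.H86

open MeasureTheory Set Pool.Agent.UL3 Pool.Agent.UL4 Pool.Agent.UL5 Pool.Agent.UL6

/-- the bound of Ulam's conjecture is less than `0.7405` -/
theorem const : Real.pi / (3 * Real.sqrt 2) < 1481 / 2000 := by
  have h1 : (1.41421 : ℝ) < Real.sqrt 2 := by
    rw [Real.lt_sqrt (by norm_num)]
    norm_num
  have h2 := Real.pi_lt_d6
  rw [div_lt_div_iff₀ (by positivity) (by norm_num)]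
  nlinarith

/-- all frusta in the standard position -/
theorem good (hC : GccStmt) (hT : GctStmt) (hB : GcbStmt) (hY : GcyStmt) (hS : SclStmt)
    (C : Set (ℝ × ℝ)) (t : ℝ) (h : PB C) (h0 : 0 ≤ t) (h1 : t ≤ 1) : Good5 (frg C (1 - t) 1) := by
  rcases le_total t (3 / 10) with h2 | h2
  · exact hS C t (by linarith) (hC C t h h0 h2)
  rcases le_total t (2 / 5) with h3 | h3
  · exact hS C t (by linarith) (hT C t h h2 h3)
  rcases le_total t (17 / 20) with h4 | h4
  · exact hB C t h h3 h4
  · exact hY C t h h4 h1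

theorem top (hC : GccStmt) (hT : GctStmt) (hB : GcbStmt) (hY : GcyStmt) (hS : SclStmt)
    (hI : InfStmt) (hF : StfStmt) (hV : FgvStmt) (hL : LpgStmt) :
    ∀ (C : Set (EuclideanSpace ℝ (Fin 3))) (c n p : EuclideanSpace ℝ (Fin 3)) (t : ℝ),
      IsCompact C → Convex ℝ C → (∀ x ∈ C, (2 : ℝ) • c - x ∈ C) → n ≠ 0 →
      (∀ x ∈ C, inner ℝ (x - c) n = 0) → 0 ≤ t → t ≤ 1 →
      ∀ K : Set (EuclideanSpace ℝ (Fin 3)),
        K = convexHull ℝ (C ∪ (fun x => p + t • (x - c)) '' C) → (interior K).Nonempty →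
        ∃ f : ℕ → (EuclideanSpace ℝ (Fin 3) ≃ᵢ EuclideanSpace ℝ (Fin 3)),
          (∀ i : ℕ, (∃ a, ∀ x, f i x = x + a) ∨ ∃ a, ∀ x, f i x = a - x) ∧
          (∀ i j : ℕ, i ≠ j →
            Disjoint (interior ((f i) '' K)) (interior ((f j) '' K))) ∧
          Real.pi / (3 * Real.sqrt 2) < 1481 / 2000 ∧
          ENNReal.ofReal (1481 / 2000) ≤
            Filter.limsup
              (fun R : ℝ =>
                volume ((⋃ i : ℕ, (f i) '' K) ∩
                    Metric.ball (0 : EuclideanSpace ℝ (Fin 3)) R) /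
                  volume (Metric.ball (0 : EuclideanSpace ℝ (Fin 3)) R))
              Filter.atTop := by
  intro C c n p t hcp hcv hsy hn hpl h0 h1 K hK hint
  -- `C` is nonempty
  have hne : C.Nonempty := by
    rw [Set.nonempty_iff_ne_empty]
    intro he
    rw [hK, he, image_empty, union_empty, convexHull_empty, interior_empty] at hint
    exact Set.not_nonempty_empty hint
  -- `p` is not in the plane
  have hp : inner ℝ (p - c) n ≠ 0 := by
    intro h2
    -- the linear functional
    set L : EuclideanSpace ℝ (Fin 3) →ₗ[ℝ] ℝ :=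
      (innerₛₗ ℝ (E := EuclideanSpace ℝ (Fin 3))).flip n with hLdef
    have hLa : ∀ x, L x = inner ℝ x n := fun x => rfl
    have hsub : K ⊆ {x | L x = L c} := by
      rw [hK]
      refine convexHull_min ?_ ?_
      · rintro x (hx | ⟨y, hy, rfl⟩)
        · have h3 := hpl x hx
          rw [inner_sub_left] at h3
          show L x = L c
          rw [hLa, hLa]
          linarith
        · have h3 := hpl y hy
          show L (p + t • (y - c)) = L c
          rw [map_add, map_smul, hLa, hLa, hLa, h3, smul_zero, add_zero]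
          rw [inner_sub_left] at h2
          linarith
      · exact convex_hyperplane L.isLinear _
    obtain ⟨x, hx⟩ := hint
    have hx' := mem_interior_iff_mem_nhds.1 hx
    have hcont : Filter.Tendsto (fun e : ℝ => x + e • n) (nhds 0) (nhds (x + (0 : ℝ) • n)) := by
      apply Continuous.tendsto
      fun_prop
    rw [zero_smul, add_zero] at hcont
    have h4 := hcont.eventually hx'
    obtain ⟨d, hd, h5⟩ := Metric.eventually_nhds_iff.1 h4
    have h6 : x + (d / 2) • n ∈ K := h5 (by
      rw [Real.dist_eq, sub_zero, abs_of_pos (by linarith)]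
      linarith)
    have h7 : L (x + (d / 2) • n) = L c := hsub h6
    have h8 : L x = L c := hsub (interior_subset hx)
    rw [map_add, map_smul, h8, hLa n, smul_eq_mul] at h7
    have h9 : 0 < inner ℝ n n := real_inner_self_pos.2 hn
    have h10 : 0 < d / 2 * inner ℝ n n := by positivity
    linarith
  have hint' := hint
  rw [hK] at hint'
  obtain ⟨T, C₀, hPB, hTK⟩ := hF C c n p t hcp hcv hne hsy hpl hp h0 h1 hint'
  rw [← hK] at hTK
  have hg : Good5 (frg C₀ (1 - t) 1) := good hC hT hB hY hS C₀ t hPB h0 h1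
  have hKeq : K = (fun y => T.symm y + c) '' frg C₀ (1 - t) 1 := by
    rw [← hTK, image_image]
    ext x
    simp
  have hKc : IsCompact K := by
    rw [hKeq]
    refine (hV C₀ (1 - t) 1 hPB (by linarith) one_pos (by linarith)).1.cpt.image ?_
    exact (T.symm.continuous).add continuous_const
  have hKv : Convex ℝ K := by
    rw [hK]
    exact convex_convexHull ℝ _
  rw [← hTK] at hg
  obtain ⟨v, z, hv0, hv1, hv2, hv3⟩ := hI K T c hg
  obtain ⟨f, hf0, hf1, hf2⟩ := hL K v z hKc hKv hint hv0 hv1 hv2
  refine ⟨f, hf0, hf1, const, le_trans (ENNReal.ofReal_le_ofReal ?_) hf2⟩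
  rw [le_div_iff₀ (by positivity)]
  linarith

end Pool.Agent.UL6.H86
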