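import Pool.Agent.UL6.Stmts2
import Pool.Agent.Helper86_UL6.TOP
import Pool.Agent.Helper31_UL5.TOP

/-!
# Squad UL6: the theorem for frusta, double frusta and their halves
-/

set_option autoImplicit false

namespace Pool.Agent.UL6.H86

open MeasureTheory Set Pool.Agent.UL3 Pool.Agent.UL4 Pool.Agent.UL5 Pool.Agent.UL6

/-- a half of a centrally symmetric body with a good lattice -/
theorem half (hL : LpgStmt) {D K : Set E3} {c m : E3} (hD : IsCompact D) (hDc : Convex ℝ D)
    (hDs : ∀ x ∈ D, (2 : ℝ) • c - x ∈ D) (hm : m ≠ 0)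
    (hK : K = {x | x ∈ D ∧ 0 ≤ inner ℝ (x - c) m}) (hi : (interior K).Nonempty) (hg : Good6 D) :
    ∃ f : ℕ → (E3 ≃ᵢ E3),
      (∀ i j : ℕ, i ≠ j → Disjoint (interior ((f i) '' K)) (interior ((f j) '' K))) ∧
      ENNReal.ofReal (1481 / 2000) ≤ Filter.limsup
        (fun R : ℝ => volume ((⋃ i : ℕ, (f i) '' K) ∩ Metric.ball (0 : E3) R) /
          volume (Metric.ball (0 : E3) R)) Filter.atTop := by
  have hclosed : IsClosed {x : E3 | 0 ≤ inner ℝ (x - c) m} :=
    isClosed_le continuous_const (by fun_prop)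
  have hK' : K = D ∩ {x : E3 | 0 ≤ inner ℝ (x - c) m} := by
    rw [hK]; rfl
  have hKD : K ⊆ D := by
    rw [hK']
    exact inter_subset_left
  have hKc : IsCompact K := by
    rw [hK']
    exact hD.inter_right hclosed
  have hhalf : Convex ℝ {x : E3 | 0 ≤ inner ℝ (x - c) m} := by
    intro x hx y hy a b ha hb hab
    simp only [mem_setOf_eq] at hx hy ⊢
    have h1 : a • x + b • y - c = a • (x - c) + b • (y - c) := by
      have : c = (a + b) • c := by rw [hab, one_smul]
      nth_rewrite 1 [this]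
      module
    rw [h1, inner_add_left, inner_smul_left, inner_smul_left]
    simp only [conj_trivial]
    positivity
  have hKv : Convex ℝ K := by
    rw [hK']
    exact hDc.inter hhalf
  obtain ⟨v, hv, hd, hdt⟩ := hg
  have hint : interior K ⊆ interior D := interior_mono hKD
  -- the interior of `D` is symmetric
  have hsym : ∀ x ∈ interior D, (2 : ℝ) • c - x ∈ interior D := by
    intro x hx
    have h1 : (fun y => (2 : ℝ) • c - y) ⁻¹' D = D := by
      ext y
      constructor
      · intro hy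
        have := hDs _ hy
        simpa using this
      · intro hy
        exact hDs y hy
    have h2 : (fun y => (2 : ℝ) • c - y) ⁻¹' interior D ⊆ interior D := by
      have h3 : IsOpen ((fun y => (2 : ℝ) • c - y) ⁻¹' interior D) :=
        isOpen_interior.preimage (by fun_prop)
      refine interior_maximal ?_ h3
      intro y hy
      have h4 : y ∈ (fun y => (2 : ℝ) • c - y) ⁻¹' D := preimage_mono interior_subset hy
      rwa [h1] at h4
    apply h2
    show (2 : ℝ) • c - ((2 : ℝ) • c - x) ∈ interior D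
    rwa [sub_sub_cancel]
  have hz : ∀ n : Fin 3 → ℤ, c + ∑ i, (n i : ℝ) • v i ∉ interior K := by
    intro n hn
    by_cases h0 : n = 0
    · subst h0
      have h1 : c ∈ interior K := by simpa using hn
      -- points on the wrong side near `c`
      rw [mem_interior_iff_mem_nhds, Metric.mem_nhds_iff] at h1
      obtain ⟨ε, hε, h2⟩ := h1
      have hmn : 0 < ‖m‖ := norm_pos_iff.2 hm
      have h3 : c - (ε / (2 * ‖m‖)) • m ∈ Metric.ball c ε := by
        rw [Metric.mem_ball, dist_eq_norm]
        have : c - (ε / (2 * ‖m‖)) • m - c = -((ε / (2 * ‖m‖)) • m) := by abel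
        rw [this, norm_neg, norm_smul, Real.norm_of_nonneg (by positivity)]
        have : ε / (2 * ‖m‖) * ‖m‖ = ε / 2 := by
          field_simp
        rw [this]
        linarith
      have h4 := h2 h3
      rw [hK] at h4
      have h5 := h4.2
      have h6 : c - (ε / (2 * ‖m‖)) • m - c = -((ε / (2 * ‖m‖)) • m) := by abel
      rw [h6, inner_neg_left, inner_smul_left, real_inner_self_eq_norm_sq] at h5
      simp only [conj_trivial] at h5
      have h7 : 0 < ε / (2 * ‖m‖) * ‖m‖ ^ 2 := by positivity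
      linarith
    · have h1 : c + ∑ i, (n i : ℝ) • v i ∈ interior D := hint hn
      have h2 := hsym _ h1
      refine Set.disjoint_left.1 (hd n h0) h1 ⟨_, h2, ?_⟩
      show (2 : ℝ) • c - (c + ∑ i, (n i : ℝ) • v i) + (2 : ℝ) • ∑ i, (n i : ℝ) • v i = _
      module
  have hdK : ∀ n : Fin 3 → ℤ, n ≠ 0 → Disjoint (interior K)
      ((fun x => x + (2 : ℝ) • ∑ i, (n i : ℝ) • v i) '' interior K) := fun n hn =>
    (hd n hn).mono hint (image_mono hint)
  obtain ⟨f, -, hf2, hf3⟩ := hL K v c hKc hKv hi hv hdK hz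
  -- the volume
  have hvol : V D ≤ 2 * V K := by
    have hsub : D ⊆ K ∪ (fun y => (2 : ℝ) • c - y) '' K := by
      intro x hx
      by_cases h : 0 ≤ inner ℝ (x - c) m
      · left
        rw [hK]
        exact ⟨hx, h⟩
      · right
        refine ⟨(2 : ℝ) • c - x, ?_, ?_⟩
        · rw [hK]
          refine ⟨hDs x hx, ?_⟩
          have h1 : (2 : ℝ) • c - x - c = -(x - c) := by module
          rw [h1, inner_neg_left]
          linarith [not_le.1 h]
        · show (2 : ℝ) • c - ((2 : ℝ) • c - x) = x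
          rw [sub_sub_cancel]
    have hrefl : (volume : Measure E3) ((fun y => (2 : ℝ) • c - y) '' K) = volume K := by
      have h0 : (fun y : E3 => (2 : ℝ) • c - y) '' K =
          (fun y : E3 => y + (2 : ℝ) • c) '' (Neg.neg '' K) := by
        rw [image_image]
        refine image_congr fun y _ => ?_
        abel
      rw [h0, image_add_right, measure_preimage_add_right, image_neg_eq_neg, Measure.measure_neg]
    have h1 : (volume : Measure E3) D ≤ volume K + volume K :=
      le_trans (measure_mono hsub) (le_trans (measure_union_le _ _) (by rw [hrefl]))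
    have h2 : (volume : Measure E3) K ≠ ⊤ := hKc.measure_ne_top
    unfold V
    rw [Measure.real, Measure.real]
    have h3 := ENNReal.toReal_mono (ENNReal.add_ne_top.2 ⟨h2, h2⟩) h1
    rw [ENNReal.toReal_add h2 h2] at h3
    linarith
  refine ⟨f, hf2, le_trans (ENNReal.ofReal_le_ofReal ?_) hf3⟩
  rw [div_le_div_iff₀ (by norm_num) (by positivity)]
  nlinarith [hdt, hvol]

theorem cpt_of {K K' : Set E3} {T : E3 ≃L[ℝ] E3} {c : E3} (h : (fun x => T (x - c)) '' K = K')
    (hK' : IsCompact K') : IsCompact K := by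
  have h1 : K = (fun y => T.symm y + c) '' K' := by
    rw [← h, image_image]
    simp
  rw [h1]
  exact hK'.image (by fun_prop)

/-- all double frusta in the standard position -/
theorem good2 (hA : DcaStmt) (hM : ScmStmt) (hB : DslStmt) (hY : DcyStmt)
    (C : Set (ℝ × ℝ)) (t : ℝ) (h : PB C) (h0 : 0 ≤ t) (h1 : t ≤ 1) : Good6 (tdd C t) := by
  rcases le_total t (2 / 5) with h3 | h3
  · exact hM C t (by linarith) (hA C t h h0 h3)
  rcases le_total t (17 / 20) with h4 | h4
  · exact hB C t h h3 h4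
  · exact hY C t h h4 h1

/-- a convex set which is contained in a plane has no interior points -/
theorem not_flat {K : Set E3} {c n : E3} (hn : n ≠ 0) (h : ∀ x ∈ K, inner ℝ (x - c) n = 0) :
    ¬ (interior K).Nonempty := by
  rintro ⟨x, hx⟩
  have hx' := mem_interior_iff_mem_nhds.1 hx
  have hcont : Filter.Tendsto (fun e : ℝ => x + e • n) (nhds 0) (nhds (x + (0 : ℝ) • n)) := by
    apply Continuous.tendsto
    fun_prop
  rw [zero_smul, add_zero] at hcont
  obtain ⟨d, hd, h5⟩ := Metric.eventually_nhds_iff.1 (hcont.eventually hx')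
  have h6 : x + (d / 2) • n ∈ K := h5 (by
    rw [Real.dist_eq, sub_zero, abs_of_pos (by linarith)]
    linarith)
  have h7 := h _ h6
  have h8 := h _ (interior_subset hx)
  have h9 : x + (d / 2) • n - c = (x - c) + (d / 2) • n := by abel
  rw [h9, inner_add_left, h8, real_inner_smul_left] at h7
  have h10 : 0 < inner ℝ n n := real_inner_self_pos.2 hn
  have h11 : 0 < d / 2 * inner ℝ n n := by positivity
  linarith

/-- the double frustum is symmetric about `c` -/
theorem dsym {C : Set E3} {c p : E3} {t : ℝ} (h4 : ∀ x ∈ C, (2 : ℝ) • c - x ∈ C) :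
    ∀ x ∈ convexHull ℝ (C ∪ (fun x => p + t • (x - c)) '' C ∪
      (fun x => (2 : ℝ) • c - p + t • (x - c)) '' C),
    (2 : ℝ) • c - x ∈ convexHull ℝ (C ∪ (fun x => p + t • (x - c)) '' C ∪
      (fun x => (2 : ℝ) • c - p + t • (x - c)) '' C) := by
  intro x hx
  set S : Set E3 := C ∪ (fun x => p + t • (x - c)) '' C ∪
      (fun x => (2 : ℝ) • c - p + t • (x - c)) '' C with hS
  have hDv : Convex ℝ (convexHull ℝ S) := convex_convexHull ℝ _
  have h8 : ∀ y ∈ S, (2 : ℝ) • c - y ∈ S := by
    rintro y ((hy | ⟨z, hz, rfl⟩) | ⟨z, hz, rfl⟩)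
    · exact Or.inl (Or.inl (h4 y hy))
    · refine Or.inr ⟨(2 : ℝ) • c - z, h4 z hz, ?_⟩
      show (2 : ℝ) • c - p + t • ((2 : ℝ) • c - z - c) = (2 : ℝ) • c - (p + t • (z - c))
      module
    · refine Or.inl (Or.inr ⟨(2 : ℝ) • c - z, h4 z hz, ?_⟩)
      show p + t • ((2 : ℝ) • c - z - c) = (2 : ℝ) • c - ((2 : ℝ) • c - p + t • (z - c))
      module
  have h9 : convexHull ℝ S ⊆ (fun y => (2 : ℝ) • c - y) ⁻¹' convexHull ℝ S := by
    refine convexHull_min (fun y hy => subset_convexHull ℝ _ (h8 y hy)) ?_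
    intro y hy z hz a b ha hb hab
    show (2 : ℝ) • c - (a • y + b • z) ∈ convexHull ℝ S
    have h10 : (2 : ℝ) • c - (a • y + b • z) = a • ((2 : ℝ) • c - y) + b • ((2 : ℝ) • c - z) := by
      have : (2 : ℝ) • c = (a + b) • (2 : ℝ) • c := by rw [hab, one_smul]
      nth_rewrite 1 [this]
      module
    rw [h10]
    exact hDv hy hz ha hb hab
  exact h9 hx

/-- **The theorem for double frusta and their halves.** -/
theorem top2
    (h16 : ∀ (C : Set (EuclideanSpace ℝ (Fin 3))) (c n p : EuclideanSpace ℝ (Fin 3)),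
      IsCompact C → Convex ℝ C → C.Nonempty → (∀ x ∈ C, (2 : ℝ) • c - x ∈ C) →
      (∀ x ∈ C, inner ℝ (x - c) n = 0) → inner ℝ (p - c) n ≠ 0 →
      ∀ K : Set (EuclideanSpace ℝ (Fin 3)),
        (K = convexHull ℝ (C ∪ {p}) ∨ K = convexHull ℝ (C ∪ {p, (2 : ℝ) • c - p}) ∨
          ∃ m : EuclideanSpace ℝ (Fin 3), m ≠ 0 ∧
            K = {x | x ∈ convexHull ℝ (C ∪ {p, (2 : ℝ) • c - p}) ∧ 0 ≤ inner ℝ (x - c) m}) →
        (interior K).Nonempty →
        ∃ f : ℕ → (EuclideanSpace ℝ (Fin 3) ≃ᵢ EuclideanSpace ℝ (Fin 3)),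
          (∀ i j : ℕ, i ≠ j →
            Disjoint (interior ((f i) '' K)) (interior ((f j) '' K))) ∧
          ENNReal.ofReal (16 / 21) ≤
            Filter.limsup
              (fun R : ℝ =>
                volume ((⋃ i : ℕ, (f i) '' K) ∩
                    Metric.ball (0 : EuclideanSpace ℝ (Fin 3)) R) /
                  volume (Metric.ball (0 : EuclideanSpace ℝ (Fin 3)) R))
              Filter.atTop)
    (h1 : ∀ (C : Set (EuclideanSpace ℝ (Fin 3))) (c n p : EuclideanSpace ℝ (Fin 3)) (t : ℝ),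
      IsCompact C → Convex ℝ C → (∀ x ∈ C, (2 : ℝ) • c - x ∈ C) → n ≠ 0 →
      (∀ x ∈ C, inner ℝ (x - c) n = 0) → 0 ≤ t → t ≤ 1 →
      ∀ K : Set (EuclideanSpace ℝ (Fin 3)),
        K = convexHull ℝ (C ∪ (fun x => p + t • (x - c)) '' C) → (interior K).Nonempty →
        ∃ f : ℕ → (EuclideanSpace ℝ (Fin 3) ≃ᵢ EuclideanSpace ℝ (Fin 3)),
          (∀ i : ℕ, (∃ a, ∀ x, f i x = x + a) ∨ ∃ a, ∀ x, f i x = a - x) ∧
          (∀ i j : ℕ, i ≠ j →
            Disjoint (interior ((f i) '' K)) (interior ((f j) '' K))) ∧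
          Real.pi / (3 * Real.sqrt 2) < 1481 / 2000 ∧
          ENNReal.ofReal (1481 / 2000) ≤
            Filter.limsup
              (fun R : ℝ =>
                volume ((⋃ i : ℕ, (f i) '' K) ∩
                    Metric.ball (0 : EuclideanSpace ℝ (Fin 3)) R) /
                  volume (Metric.ball (0 : EuclideanSpace ℝ (Fin 3)) R))
              Filter.atTop)
    (hA : DcaStmt) (hM : ScmStmt) (hB : DslStmt) (hY : DcyStmt) (hI : InmStmt) (hF : SdfStmt)
    (hT : TddStmt) (hL : LpgStmt) (hL' : LpdStmt) :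
    Real.pi / (3 * Real.sqrt 2) < 1481 / 2000 ∧
    ∀ (C : Set (EuclideanSpace ℝ (Fin 3))) (c n p : EuclideanSpace ℝ (Fin 3)) (t : ℝ),
      IsCompact C → Convex ℝ C → (∀ x ∈ C, (2 : ℝ) • c - x ∈ C) → n ≠ 0 →
      (∀ x ∈ C, inner ℝ (x - c) n = 0) → 0 ≤ t → t ≤ 1 →
      ∀ D K : Set (EuclideanSpace ℝ (Fin 3)),
        D = convexHull ℝ (C ∪ (fun x => p + t • (x - c)) '' C ∪
          (fun x => (2 : ℝ) • c - p + t • (x - c)) '' C) →
        (K = D ∨ K = convexHull ℝ (C ∪ (fun x => p + t • (x - c)) '' C) ∨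
          ∃ m : EuclideanSpace ℝ (Fin 3), m ≠ 0 ∧ K = {x | x ∈ D ∧ 0 ≤ inner ℝ (x - c) m}) →
        (interior K).Nonempty →
        ∃ f : ℕ → (EuclideanSpace ℝ (Fin 3) ≃ᵢ EuclideanSpace ℝ (Fin 3)),
          (∀ i j : ℕ, i ≠ j →
            Disjoint (interior ((f i) '' K)) (interior ((f j) '' K))) ∧
          ∃ κ : ℝ, 1481 / 2000 ≤ κ ∧ (t = 0 → 16 / 21 ≤ κ) ∧
            ENNReal.ofReal κ ≤
              Filter.limsup
                (fun R : ℝ =>
                  volume ((⋃ i : ℕ, (f i) '' K) ∩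
                      Metric.ball (0 : EuclideanSpace ℝ (Fin 3)) R) /
                    volume (Metric.ball (0 : EuclideanSpace ℝ (Fin 3)) R))
                Filter.atTop := by
  refine ⟨const, ?_⟩
  intro C c n p t hcp hcv hsy hn hpl h0 h1t D K hD hK hi
  have hFD : convexHull ℝ (C ∪ (fun x => p + t • (x - c)) '' C) ⊆ D := by
    rw [hD]
    exact convexHull_mono subset_union_left
  have hKD : K ⊆ D := by
    rcases hK with hK | hK | ⟨m, -, hK⟩
    · exact hK.subset
    · rw [hK]
      exact hFD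
    · rw [hK]
      exact fun x hx => hx.1
  have hiD : (interior D).Nonempty := hi.mono (interior_mono hKD)
  -- `C` is nonempty
  have hne : C.Nonempty := by
    rw [Set.nonempty_iff_ne_empty]
    intro he
    rw [hD, he, image_empty, image_empty, union_empty, union_empty, convexHull_empty,
      interior_empty] at hiD
    exact Set.not_nonempty_empty hiD
  -- `p` is not in the plane
  have hp : inner ℝ (p - c) n ≠ 0 := by
    intro h2
    refine not_flat (K := D) (c := c) hn ?_ hiD
    set L : EuclideanSpace ℝ (Fin 3) →ₗ[ℝ] ℝ :=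
      (innerₛₗ ℝ (E := EuclideanSpace ℝ (Fin 3))).flip n with hLdef
    have hLa : ∀ x, L x = inner ℝ x n := fun x => rfl
    have hsub : D ⊆ {x | L x = L c} := by
      rw [hD]
      refine convexHull_min ?_ ?_
      · rw [inner_sub_left] at h2
        rintro x ((hx | ⟨y, hy, rfl⟩) | ⟨y, hy, rfl⟩)
        · have h3 := hpl x hx
          rw [inner_sub_left] at h3
          show L x = L c
          rw [hLa, hLa]
          linarith
        · have h3 := hpl y hy
          show L (p + t • (y - c)) = L c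
          rw [map_add, map_smul, hLa, hLa, hLa, h3, smul_zero, add_zero]
          linarith
        · have h3 := hpl y hy
          show L ((2 : ℝ) • c - p + t • (y - c)) = L c
          rw [map_add, map_smul, map_sub, map_smul, hLa, hLa, hLa, h3, smul_zero, add_zero,
            smul_eq_mul]
          linarith
      · exact convex_hyperplane L.isLinear _
    intro x hx
    have h3 : L x = L c := hsub hx
    rw [hLa, hLa] at h3
    rw [inner_sub_left]
    linarith
  by_cases ht : t = 0
  · -- double cones: squad UL5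
    subst ht
    have e1 : (fun x => p + (0 : ℝ) • (x - c)) '' C = {p} := by
      ext y
      constructor
      · rintro ⟨x, -, rfl⟩
        simp
      · intro hy
        obtain ⟨x, hx⟩ := hne
        refine ⟨x, hx, ?_⟩
        rw [mem_singleton_iff.1 hy]
        simp
    have e2 : (fun x => (2 : ℝ) • c - p + (0 : ℝ) • (x - c)) '' C = {(2 : ℝ) • c - p} := by
      ext y
      constructor
      · rintro ⟨x, -, rfl⟩
        simp
      · intro hy
        obtain ⟨x, hx⟩ := hne
        refine ⟨x, hx, ?_⟩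
        rw [mem_singleton_iff.1 hy]
        simp
    have e3 : C ∪ {p} ∪ {(2 : ℝ) • c - p} = C ∪ {p, (2 : ℝ) • c - p} := by
      rw [union_assoc, singleton_union]
    rw [e1, e2, e3] at hD
    rw [e1] at hK
    obtain ⟨f, hf1, hf2⟩ := h16 C c n p hcp hcv hne hsy hpl hp K (by
      rcases hK with hK | hK | ⟨m, hm, hK⟩
      · exact Or.inr (Or.inl (hK.trans hD))
      · exact Or.inl hK
      · exact Or.inr (Or.inr ⟨m, hm, by rw [hK, hD]⟩)) hi
    exact ⟨f, hf1, 16 / 21, by norm_num, fun _ => le_refl _, hf2⟩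
  · have hiD' := hiD
    rw [hD] at hiD'
    obtain ⟨T, C₀, hC₀, hTD⟩ := hF C c n p t hcp hcv hne hsy hpl hp h0 h1t hiD'
    rw [← hD] at hTD
    have hg : Good6 D := hI D T c (by rw [hTD]; exact good2 hA hM hB hY C₀ t hC₀ h0 h1t)
    have hDc : IsCompact D := Pool.Agent.UL5.H31.cpt_of hTD (hT C₀ t hC₀ h0 h1t).1.cpt
    have hDv : Convex ℝ D := by
      rw [hD]
      exact convex_convexHull ℝ _
    rcases hK with hK | hK | ⟨m, hm, hK⟩
    · obtain ⟨v, hv, hd, hdt⟩ := hg
      obtain ⟨f, hf2, hf3⟩ := hL' D v hDc hDv hiD hv hd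
      rw [hK]
      refine ⟨f, hf2, 1481 / 2000, le_refl _, fun h => absurd h ht,
        le_trans (ENNReal.ofReal_le_ofReal ?_) hf3⟩
      rw [le_div_iff₀ (by positivity)]
      linarith
    · obtain ⟨f, -, hf1, -, hf2⟩ := h1 C c n p t hcp hcv hsy hn hpl h0 h1t K hK hi
      exact ⟨f, hf1, 1481 / 2000, le_refl _, fun h => absurd h ht, hf2⟩
    · have hs : ∀ x ∈ D, (2 : ℝ) • c - x ∈ D := by
        rw [hD]
        exact dsym hsy
      obtain ⟨f, hf1, hf2⟩ := half hL hDc hDv hs hm hK hi hg
      exact ⟨f, hf1, 1481 / 2000, le_refl _, fun h => absurd h ht, hf2⟩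

end Pool.Agent.UL6.H86
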